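import Pool.Agent.H39FB.Count

/-!
# The exceptions to a(n) = b(n) are extremely sparse

For every X at least 1, the number of n with 3 ≤ n ≤ X for which the integer part of
(n/4) cot(π/n) differs from the integer part of n^2/(4π) - π/12 is at most
8 (log_2 X + 1) times the largest number of divisors of an integer up to X^2, and this is O(X^ε)
for every positive ε.  No information on the irrationality measure of π is used: two exceptions
n < n' in a window [N, 9N/8] give a reduced fraction p/q very close to 4π such that all the
squares of the exceptions in the window are congruent modulo p, and the relation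
π^2/3 = (4π)^2/48 between the shift and the leading coefficient makes the integer
R = 48 q (q n^2 - p m) - p^2 small and non-zero, which bounds q from below and limits the
repeated factors.
-/

namespace Pool.Agent.Results.MP_fb78f2_nt.SparseExceptions

open Real

open Classical in
theorem result :
    (∀ X : ℕ, 1 ≤ X →
      ((Finset.Icc 3 X).filter fun n : ℕ =>
        ⌊(n : ℝ) / 4 * Real.cot (π / n)⌋ ≠ ⌊(n : ℝ) ^ 2 / (4 * π) - π / 12⌋).card ≤
      8 * (Nat.log 2 X + 1) * ((Finset.Icc 1 (X ^ 2)).sup fun k => k.divisors.card)) ∧
    (∀ ε : ℝ, 0 < ε → ∃ C : ℝ, 0 < C ∧ ∀ X : ℕ, 1 ≤ X →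
      ((8 * (Nat.log 2 X + 1) * ((Finset.Icc 1 (X ^ 2)).sup fun k => k.divisors.card) : ℕ) : ℝ) ≤
        C * (X : ℝ) ^ ε) := by
  refine ⟨fun X hX => ?_, fun ε hε => ?_⟩
  · have h := Pool.Agent.H39FB.count_le X hX
    refine le_trans (le_of_eq ?_) h
    congr 1
    ext n
    simp only [Finset.mem_filter, Pool.Agent.H39FB.Exc]
  · exact Pool.Agent.H39FB.bound_small hε

end Pool.Agent.Results.MP_fb78f2_nt.SparseExceptions
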